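import Pool.Agent.H17.Ex6

namespace Pool.Agent.Results.MP_61b90e_gt.Beke
open CategoryTheory

theorem result (n : ℕ) (hn : 1 ≤ n) : ∃ (C : Type) (_ : SmallCategory C),
    SSet.KanComplex (SSet.ex.obj^[n] (nerve C)) ∧
      ¬ SSet.KanComplex (SSet.ex.obj^[n - 1] (nerve C)) := by
  obtain ⟨j, rfl⟩ : ∃ j, n = j + 1 := ⟨n - 1, by omega⟩
  exact ⟨Pool.Agent.H17.Ex.Fen (2 * 2 ^ j), inferInstance, Pool.Agent.H17.Ex.kan_fen j,
    Pool.Agent.H17.Ex.not_kan_fen j⟩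

end Pool.Agent.Results.MP_61b90e_gt.Beke
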